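import Pool.Agent.H63.PHJ

set_option autoImplicit false

namespace Pool.Agent.Results.MP_23196e_co.Chromatic

open Pool.Agent.H63.PHJ

/-- An admissible set in the plane `ℂ`: infinite, no three points on a line, no four on a circle. -/
def Admissible (A : Set ℂ) : Prop :=
  A.Infinite ∧
  (∀ p ∈ A, ∀ q ∈ A, ∀ r ∈ A, p ≠ q → p ≠ r → q ≠ r → ¬ Collinear ℝ {p, q, r}) ∧
  (∀ p ∈ A, ∀ q ∈ A, ∀ r ∈ A, ∀ s ∈ A, p ≠ q → p ≠ r → p ≠ s → q ≠ r → q ≠ s → r ≠ s →
    ¬ EuclideanGeometry.Cospherical ({p, q, r, s} : Set ℂ))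

/-- The integer-distance graph on `A`: distinct points are adjacent iff their distance is an
integer. -/
def G (A : Set ℂ) : SimpleGraph A :=
  SimpleGraph.fromRel (fun x y => ∃ n : ℤ, dist (x : ℂ) (y : ℂ) = n)

lemma im_coe (x : GaussianInt) : (GaussianInt.toComplex x).im = x.im := by
  simp

lemma coll {p q r : ℂ} (h : Collinear ℝ {p, q, r}) : ((p - q) * star (p - r)).im = 0 := by
  obtain ⟨v, hv⟩ := (collinear_iff_of_mem (p₀ := p) (by simp)).1 h
  obtain ⟨a, ha⟩ := hv q (by simp)
  obtain ⟨b, hb⟩ := hv r (by simp)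
  rw [ha, hb]
  simp
  ring

lemma cosph {p q r s : ℂ} (h : EuclideanGeometry.Cospherical ({p, q, r, s} : Set ℂ)) :
    ((p - q) * (r - s) * star ((p - r) * (q - s))).im = 0 := by
  obtain ⟨o, ρ, h⟩ := h
  have key : ∀ x : ℂ, dist x o = ρ → (x.re - o.re) ^ 2 + (x.im - o.im) ^ 2 = ρ ^ 2 := by
    intro x hx
    rw [← hx, Complex.dist_eq, Complex.sq_norm, Complex.normSq_apply]
    simp; ring
  have h1 := key p (h p (by simp))
  have h2 := key q (h q (by simp))
  have h3 := key r (h r (by simp))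
  have h4 := key s (h s (by simp))
  simp only [Complex.mul_im, Complex.mul_re, Complex.sub_re, Complex.sub_im, Complex.star_def,
    Complex.conj_re, Complex.conj_im]
  linear_combination
    ((r.re - q.re) * (s.im - q.im) - (s.re - q.re) * (r.im - q.im)) * h1 -
    ((r.re - p.re) * (s.im - p.im) - (s.re - p.re) * (r.im - p.im)) * h2 +
    ((q.re - p.re) * (s.im - p.im) - (s.re - p.re) * (q.im - p.im)) * h3 -
    ((q.re - p.re) * (r.im - p.im) - (r.re - p.re) * (q.im - p.im)) * h4

noncomputable def pt (S : Finset ℕ) : ℂ := GaussianInt.toComplex (val S)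

lemma pt_inj : Function.Injective pt := fun _ _ h =>
  val_inj (GaussianInt.toComplex_injective h)

lemma star_coe (x : GaussianInt) :
    star (GaussianInt.toComplex x) = GaussianInt.toComplex (star x) := by
  rw [GaussianInt.toComplex_star]; rfl

lemma coll' {S T U : Finset ℕ} (h : Collinear ℝ {pt S, pt T, pt U}) :
    ((val S - val T) * star (val S - val U)).im = 0 := by
  have := coll h
  unfold pt at this
  rw [← map_sub, ← map_sub, star_coe, ← map_mul, im_coe] at this
  exact_mod_cast this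

lemma cosph' {S T U V : Finset ℕ}
    (h : EuclideanGeometry.Cospherical ({pt S, pt T, pt U, pt V} : Set ℂ)) :
    ((val S - val T) * (val U - val V) * star ((val S - val U) * (val T - val V))).im = 0 := by
  have := cosph h
  unfold pt at this
  rw [← map_sub, ← map_sub, ← map_sub, ← map_sub, ← map_mul, ← map_mul, star_coe, ← map_mul,
    im_coe] at this
  exact_mod_cast this

lemma admissible : Admissible (Set.range pt) := by
  refine ⟨Set.infinite_range_of_injective pt_inj, ?_, ?_⟩
  · rintro _ ⟨S, rfl⟩ _ ⟨T, rfl⟩ _ ⟨U, rfl⟩ h1 h2 h3 h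
    obtain ⟨a, ha⟩ := exists_D (fun e => h1 (congrArg pt e))
    obtain ⟨b, hb⟩ := exists_D (fun e => h2 (congrArg pt e))
    obtain ⟨c, hc⟩ := exists_D (fun e => h3 (congrArg pt e))
    have t := D_tri ha hb hc
    by_cases hab : a = b
    · exact three ha.symm hc (by omega) (coll' (by rwa [Set.insert_comm]))
    · exact three ha hb hab (coll' h)
  · rintro _ ⟨S, rfl⟩ _ ⟨T, rfl⟩ _ ⟨U, rfl⟩ _ ⟨V, rfl⟩ h1 h2 h3 h4 h5 h6 h
    obtain ⟨a, ha⟩ := exists_D (fun e => h1 (congrArg pt e))
    obtain ⟨b, hb⟩ := exists_D (fun e => h2 (congrArg pt e))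
    obtain ⟨c, hc⟩ := exists_D (fun e => h3 (congrArg pt e))
    obtain ⟨d, hd⟩ := exists_D (fun e => h4 (congrArg pt e))
    obtain ⟨e, he⟩ := exists_D (fun e => h5 (congrArg pt e))
    obtain ⟨f, hf⟩ := exists_D (fun e => h6 (congrArg pt e))
    have t1 := D_tri ha hb hd
    have t2 := D_tri ha hc he
    have t3 := D_tri hb hc hf
    have t4 := D_tri hd he hf
    by_cases h7 : a + f = b + e
    · exact four ha hf.symm hc hd (by omega) (cosph' (by rwa [Set.pair_comm (pt V)]))
    · exact four ha hf hb he h7 (cosph' h)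

/-- The supremum of the chromatic numbers is countably infinite: some admissible set has no
colouring with finitely many colours, and countably many colours always suffice. -/
theorem result :
    (∃ A : Set ℂ, Admissible A ∧ ∀ n : ℕ, ¬ (G A).Colorable n) ∧
    ∀ A : Set ℂ, Nonempty ((G A).Coloring ℕ) := by
  refine ⟨⟨Set.range pt, admissible, fun n ⟨C⟩ => ?_⟩, fun A => ?_⟩
  · obtain ⟨S, T, hne, hC, z, hz⟩ := mono_square (fun S => C ⟨pt S, S, rfl⟩)
    refine C.valid ?_ hC
    rw [G, SimpleGraph.fromRel_adj]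
    refine ⟨fun h => hne (pt_inj (congrArg Subtype.val h)), Or.inl ⟨z.norm, ?_⟩⟩
    simp only [pt]
    rw [Complex.dist_eq, ← map_sub, hz, map_pow, norm_pow, Complex.sq_norm,
      GaussianInt.intCast_real_norm]
  · refine ⟨SimpleGraph.Coloring.mk
      (fun x => Encodable.encode (⌊2 * (x : ℂ).re⌋, ⌊2 * (x : ℂ).im⌋)) ?_⟩
    intro x y hxy hc
    rw [G, SimpleGraph.fromRel_adj] at hxy
    obtain ⟨hne, hd⟩ := hxy
    obtain ⟨n, hn⟩ : ∃ n : ℤ, dist (x : ℂ) (y : ℂ) = n := by
      rcases hd with h | ⟨n, h⟩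
      · exact h
      · exact ⟨n, by rw [dist_comm]; exact h⟩
    have hc' := Encodable.encode_injective hc
    rw [Prod.mk.injEq] at hc'
    have a1 := Int.abs_sub_lt_one_of_floor_eq_floor hc'.1
    have a2 := Int.abs_sub_lt_one_of_floor_eq_floor hc'.2
    have a3 : dist (x : ℂ) (y : ℂ) < 1 := by
      rw [Complex.dist_eq]
      refine lt_of_le_of_lt (Complex.norm_le_abs_re_add_abs_im _) ?_
      rw [← mul_sub, abs_mul, abs_two] at a1 a2
      rw [Complex.sub_re, Complex.sub_im]
      linarith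
    have a4 : 0 < dist (x : ℂ) (y : ℂ) := dist_pos.2 (fun h => hne (Subtype.ext h))
    rw [hn] at a3 a4
    have b1 : n < 1 := by exact_mod_cast a3
    have b2 : 0 < n := by exact_mod_cast a4
    omega

end Pool.Agent.Results.MP_23196e_co.Chromatic
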